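import Pool.Agent.H568.TS.Cnt
import Pool.Agent.H510R2.Div

set_option autoImplicit false

/-! # The total number of representations -/

namespace Pool.Agent.H568.TS

open Finset
open scoped Classical

/-- the pairs of distinct primes with a representation -/
noncomputable def SP (PP : Finset ℕ) (l D : ℕ) : Finset (ℕ × ℕ) :=
  (PP ×ˢ PP).filter fun w => w.1 ≠ w.2 ∧
    ∃ t m : ℤ, m ≠ 0 ∧ t ^ 2 + m ^ 2 * (D : ℤ) = 4 * ((w.1 : ℤ) * w.2) ^ l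

theorem total (PP : Finset ℕ) (Z : ℕ) (hPP : ∀ p ∈ PP, p.Prime ∧ p ≠ 2 ∧ p ≤ Z) (l : ℕ)
    (hl : Odd l) (X H zm : ℕ) (hX : 1 ≤ X) (hZ : 1 ≤ Z)
    (hzm : ∀ z : ℕ, z ^ 2 * X < 4 * Z ^ (2 * l) → z ≤ zm) :
    ((∑ D ∈ Ioc X (X + H), (SP PP l D).card : ℕ) : ℝ) ≤ (PP.card : ℝ) ^ 2 * ((l : ℝ) + 1) ^ 2 *
      ∑ z ∈ Icc 1 zm, ((z ^ 2).divisors.card : ℝ) * (4 * Real.sqrt H / z + 1) := by
  set f : ℕ → ℝ := fun z => ((z ^ 2).divisors.card : ℝ) * (4 * Real.sqrt H / z + 1) with hf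
  have hf0 : ∀ z, 0 ≤ f z := fun z => by rw [hf]; positivity
  set I0 : Finset ((ℕ × ℕ) × ((ℕ × ℕ) × ℕ)) :=
    (PP ×ˢ PP) ×ˢ ((range (l + 1) ×ˢ range (l + 1)) ×ˢ Icc 1 zm) with hI0
  set I := I0.filter fun w => ¬ w.1.1 ∣ w.2.2 ∧ ¬ w.1.2 ∣ w.2.2 with hI
  set N : (ℕ × ℕ) × ((ℕ × ℕ) × ℕ) → ℕ := fun w => 4 * (w.1.1 ^ w.2.1.1 * w.1.2 ^ w.2.1.2) with hN
  set Tr : Finset (Σ _ : ℕ, ℕ × ℕ) := (Ioc X (X + H)).sigma fun D => SP PP l D with hTr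
  have hcard : ∑ D ∈ Ioc X (X + H), (SP PP l D).card = Tr.card := by
    rw [hTr, card_sigma]
  have hsub : Tr ⊆ I.biUnion fun w => (AA X H (N w) w.2.2).image
      fun y => (⟨(N w - y ^ 2) / w.2.2 ^ 2, w.1⟩ : Σ _ : ℕ, ℕ × ℕ) := by
    rintro ⟨D, p, q⟩ h
    rw [hTr, mem_sigma, SP, mem_filter, mem_product, mem_Ioc] at h
    obtain ⟨hD, ⟨hp, hq⟩, hpq, t, m, hm, e⟩ := h
    simp only at hD hp hq hpq e
    obtain ⟨hp1, hp2, hp3⟩ := hPP p hp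
    obtain ⟨hq1, hq2, hq3⟩ := hPP q hq
    have e' : t.natAbs ^ 2 + m.natAbs ^ 2 * D = 4 * (p ^ l * q ^ l) := by
      zify
      rw [sq_abs, sq_abs, e, mul_pow]
    have hm1 : 1 ≤ m.natAbs := Int.natAbs_pos.2 hm
    obtain ⟨y, z, i, j, a1, a2, a3, a4, a5, a6⟩ :=
      descent hp1 hq1 hp2 hq2 hpq D m.natAbs t.natAbs l l hm1 hl hl e'
    rw [mem_biUnion]
    have hzle : z ≤ zm := by
      apply hzm
      have h1 : p ^ i ≤ Z ^ l := (Nat.pow_le_pow_left hp3 i).trans (Nat.pow_le_pow_right hZ a2)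
      have h2 : q ^ j ≤ Z ^ l := (Nat.pow_le_pow_left hq3 j).trans (Nat.pow_le_pow_right hZ a3)
      have h3 : p ^ i * q ^ j ≤ Z ^ (2 * l) := by
        rw [two_mul, pow_add]
        exact Nat.mul_le_mul h1 h2
      have h4 : z ^ 2 * X < z ^ 2 * D := Nat.mul_lt_mul_of_pos_left hD.1 (by positivity)
      omega
    refine ⟨((p, q), ((i, j), z)), ?_, ?_⟩
    · rw [hI, mem_filter, hI0, mem_product, mem_product, mem_product, mem_product, mem_range,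
        mem_range, mem_Icc]
      exact ⟨⟨⟨hp, hq⟩, ⟨by simp only; omega, by simp only; omega⟩, a1, hzle⟩, a5, a6⟩
    · rw [mem_image]
      refine ⟨y, mem_AA.2 ⟨D, hD, a4⟩, ?_⟩
      have h5 : (4 * (p ^ i * q ^ j) - y ^ 2) / z ^ 2 = D := by
        rw [← a4, Nat.add_sub_cancel_left, Nat.mul_div_cancel_left _ (by positivity)]
      simp only [hN]
      rw [h5]
  rw [hcard]
  have h1 : (Tr.card : ℝ) ≤ ∑ w ∈ I, ((AA X H (N w) w.2.2).card : ℝ) := by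
    have h2 := (card_le_card hsub).trans card_biUnion_le
    have h3 : ∑ w ∈ I, ((AA X H (N w) w.2.2).image
        fun y => (⟨(N w - y ^ 2) / w.2.2 ^ 2, w.1⟩ : Σ _ : ℕ, ℕ × ℕ)).card ≤
        ∑ w ∈ I, (AA X H (N w) w.2.2).card := sum_le_sum fun w _ => card_image_le
    exact_mod_cast h2.trans h3
  have h2 : ∑ w ∈ I, ((AA X H (N w) w.2.2).card : ℝ) ≤ ∑ w ∈ I, f w.2.2 := by
    refine sum_le_sum fun w hw => ?_
    rw [hI, mem_filter, hI0, mem_product, mem_product, mem_product, mem_Icc] at hw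
    obtain ⟨⟨⟨hp, hq⟩, ⟨_, hz1, _⟩⟩, b1, b2⟩ := hw
    apply AA_card hz1
    apply Nat.Coprime.mul_left
    · exact Nat.Coprime.pow_left _ ((Nat.Prime.coprime_iff_not_dvd (hPP _ hp).1).2 b1)
    · exact Nat.Coprime.pow_left _ ((Nat.Prime.coprime_iff_not_dvd (hPP _ hq).1).2 b2)
  have h3 : ∑ w ∈ I, f w.2.2 ≤ ∑ w ∈ I0, f w.2.2 :=
    sum_le_sum_of_subset_of_nonneg (filter_subset _ _) fun w _ _ => hf0 _
  have h4 : ∑ w ∈ I0, f w.2.2 = (PP.card : ℝ) ^ 2 * ((l : ℝ) + 1) ^ 2 * ∑ z ∈ Icc 1 zm, f z := by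
    rw [hI0, sum_product]
    simp only [sum_product, sum_const, card_product, card_range, nsmul_eq_mul]
    push_cast
    ring
  linarith

theorem sum_z (δ : ℝ) (hδ : 0 < δ) : ∃ C : ℝ, 0 < C ∧ ∀ zm H : ℕ, 1 ≤ zm →
    ∑ z ∈ Icc 1 zm, ((z ^ 2).divisors.card : ℝ) * (4 * Real.sqrt H / z + 1) ≤
      C * ((zm : ℝ) ^ 2) ^ δ * (4 * Real.sqrt H * (1 + Real.log zm) + zm) := by
  obtain ⟨C, hC, h⟩ := Pool.Agent.H510R2.divisor_bound δ hδ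
  refine ⟨C, hC, fun zm H hzm => ?_⟩
  have h1 : ∀ z ∈ Icc 1 zm, ((z ^ 2).divisors.card : ℝ) * (4 * Real.sqrt H / z + 1) ≤
      (C * ((zm : ℝ) ^ 2) ^ δ) * (4 * Real.sqrt H * (z : ℝ)⁻¹ + 1) := by
    intro z hz
    rw [mem_Icc] at hz
    have h2 := h (z ^ 2) (Nat.one_le_pow _ _ hz.1)
    have h3 : ((z ^ 2 : ℕ) : ℝ) ^ δ ≤ ((zm : ℝ) ^ 2) ^ δ := by
      apply Real.rpow_le_rpow (by positivity) _ hδ.le
      push_cast
      gcongr
      exact_mod_cast hz.2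
    rw [← div_eq_mul_inv]
    refine mul_le_mul_of_nonneg_right (h2.trans ?_) (by positivity)
    exact mul_le_mul_of_nonneg_left h3 hC.le
  refine (sum_le_sum h1).trans ?_
  rw [← mul_sum, sum_add_distrib, ← mul_sum, sum_const, Nat.card_Icc, nsmul_eq_mul, mul_one]
  refine mul_le_mul_of_nonneg_left ?_ (by positivity)
  have h4 : ∑ z ∈ Icc 1 zm, ((z : ℝ))⁻¹ ≤ 1 + Real.log zm := by
    have h5 := harmonic_le_one_add_log zm
    rw [harmonic_eq_sum_Icc] at h5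
    push_cast at h5
    exact h5
  have h6 : ((zm + 1 - 1 : ℕ) : ℝ) = zm := by rw [Nat.add_sub_cancel]
  rw [h6]
  gcongr

end Pool.Agent.H568.TS
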