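import Pool.Agent.H568.TS.Alg
import Pool.Agent.H568.TS.Tot
import Pool.Agent.H568.SP.Local

set_option autoImplicit false

/-! # Pointwise bounds and the number of exceptional discriminants -/

namespace Pool.Agent.H568.TS

open NumberField Finset Pool.Agent.TH847.LS
open scoped Classical

/-- the number of ideal classes killed by `l` of the quadratic field of discriminant `d`; quadratic fields
with the same discriminant are isomorphic, so that the set has at most one element (and `tors l d = 0` if there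
is no such field) -/
noncomputable def tors (l : ℕ) (d : ℤ) : ℕ :=
  sSup {n : ℕ | ∃ (K : Type) (_ : Field K) (_ : NumberField K), Module.finrank ℚ K = 2 ∧
    discr K = d ∧ n = Nat.card {c : ClassGroup (𝓞 K) // c ^ l = 1}}

theorem tors_le {l : ℕ} {d : ℤ} {B : ℝ} (hB : 0 ≤ B)
    (h : ∀ (K : Type) [Field K] [NumberField K], Module.finrank ℚ K = 2 → discr K = d →
      (Nat.card {c : ClassGroup (𝓞 K) // c ^ l = 1} : ℝ) ≤ B) : (tors l d : ℝ) ≤ B := by
  have h1 : tors l d ≤ ⌊B⌋₊ := by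
    apply csSup_le'
    rintro n ⟨K, i1, i2, h2, h3, rfl⟩
    exact Nat.le_floor (h K h2 h3)
  calc (tors l d : ℝ) ≤ (⌊B⌋₊ : ℝ) := by exact_mod_cast h1
    _ ≤ B := Nat.floor_le hB

/-- the class number -/
theorem class_number : ∃ C : ℝ, 0 < C ∧ ∀ (K : Type) [Field K] [NumberField K],
    Module.finrank ℚ K = 2 → (Nat.card (ClassGroup (𝓞 K)) : ℝ) ≤
      C * √((discr K).natAbs : ℝ) * Real.log ((discr K).natAbs : ℝ) := by
  obtain ⟨C, hC, h⟩ := class_bound
  refine ⟨4 * C, by positivity, fun K _ _ h2 => ?_⟩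
  have h1 := h K h2 1 le_rfl
  set D := (discr K).natAbs with hD
  have hD2 : 2 < D := one_lt_discr h2
  have hDr : (3 : ℝ) ≤ D := by exact_mod_cast hD2
  have hlog : 0 < Real.log D := Real.log_pos (by linarith)
  have hk : (KT K 1 D).card ≤ D := by
    have : KT K 1 D ⊆ Icc 1 D := by
      intro p hp
      rw [KT, mem_filter, mem_TT] at hp
      rw [mem_Icc]
      exact ⟨hp.1.1.2.one_lt.le, hp.1.1.1⟩
    have := card_le_card this
    rwa [Nat.card_Icc, Nat.add_sub_cancel] at this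
  have h3 : Real.log (((KT K 1 D).card : ℝ) + 2) ≤ 2 * Real.log D := by
    have e : 2 * Real.log (D : ℝ) = Real.log ((D : ℝ) ^ 2) := by rw [Real.log_pow]; norm_num
    rw [e]
    apply Real.log_le_log (by positivity)
    have : ((KT K 1 D).card : ℝ) ≤ D := by exact_mod_cast hk
    nlinarith
  have h4 : 0 ≤ Real.log (((KT K 1 D).card : ℝ) + 2) := Real.log_nonneg (by
    have : (0 : ℝ) ≤ ((KT K 1 D).card : ℝ) := Nat.cast_nonneg _
    linarith)
  have h5 : (Nat.card (ClassGroup (𝓞 K)) : ℝ) * Real.log D ≤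
      (4 * C * √(D : ℝ) * Real.log D) * Real.log D := by
    refine h1.trans ?_
    have h6 : (Real.log (((KT K 1 D).card : ℝ) + 2)) ^ 2 ≤ (2 * Real.log D) ^ 2 :=
      pow_le_pow_left₀ h4 h3 2
    calc C * ((1 : ℕ) : ℝ) ^ 2 * Real.log (((KT K 1 D).card : ℝ) + 2) ^ 2 * √(D : ℝ) =
        C * √(D : ℝ) * Real.log (((KT K 1 D).card : ℝ) + 2) ^ 2 := by push_cast; ring
      _ ≤ C * √(D : ℝ) * (2 * Real.log D) ^ 2 := mul_le_mul_of_nonneg_left h6 (by positivity)
      _ = _ := by ring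
  exact le_of_mul_le_mul_right h5 hlog

theorem arith1 {P S T h g : ℝ} (hP : 0 < P) (h1 : P / 4 ≤ g) (hT : 0 ≤ T)
    (key : g ^ 2 * T ≤ h * (P + S)) : T ≤ 16 * h * (1 / P + S / P ^ 2) := by
  have h3 : (P / 4) ^ 2 * T ≤ h * (P + S) := by
    refine le_trans ?_ key
    exact mul_le_mul_of_nonneg_right (pow_le_pow_left₀ (by positivity) h1 2) hT
  have h4 : T = (16 / P ^ 2) * ((P / 4) ^ 2 * T) := by
    field_simp
    ring
  rw [h4]
  calc (16 / P ^ 2) * ((P / 4) ^ 2 * T) ≤ (16 / P ^ 2) * (h * (P + S)) :=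
        mul_le_mul_of_nonneg_left h3 (by positivity)
    _ = _ := by field_simp

theorem arith2 {B P H y' : ℝ} (hP : 0 < P) (h : B * (P / 4) ^ 2 ≤ H * P + P ^ 2 * y') :
    B ≤ 16 * (H / P + y') := by
  have h3 : B = (16 / P ^ 2) * (B * (P / 4) ^ 2) := by
    field_simp
    ring
  rw [h3]
  calc (16 / P ^ 2) * (B * (P / 4) ^ 2) ≤ (16 / P ^ 2) * (H * P + P ^ 2 * y') :=
        mul_le_mul_of_nonneg_left h (by positivity)
    _ = _ := by field_simp

/-- torsion in terms of pairs of primes -/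
theorem tors_good {C : ℝ} (hC0 : 0 < C) (hC : ∀ (K : Type) [Field K] [NumberField K],
    Module.finrank ℚ K = 2 → (Nat.card (ClassGroup (𝓞 K)) : ℝ) ≤
      C * √((discr K).natAbs : ℝ) * Real.log ((discr K).natAbs : ℝ)) {l : ℕ} (hl : Odd l)
    (PP : Finset ℕ) (hPP : ∀ p ∈ PP, p.Prime ∧ p ≠ 2) (D : ℕ) (hD : 1 ≤ D)
    (hP : 1 ≤ PP.card) (hgood : (PP.card : ℝ) / 4 ≤
      ((PP.filter fun p => jacobiSym (-(D : ℤ)) p = 1).card : ℝ)) :
    (tors l (-(D : ℤ)) : ℝ) ≤ 16 * (C * √(D : ℝ) * Real.log D) *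
      (1 / PP.card + (SP PP l D).card / (PP.card : ℝ) ^ 2) := by
  have hP' : (0 : ℝ) < PP.card := by exact_mod_cast hP
  have hlog : 0 ≤ Real.log (D : ℝ) := Real.log_natCast_nonneg D
  apply tors_le (by positivity)
  intro K _ _ h2 hd
  have hneg : discr K < 0 := by rw [hd]; omega
  have habs : (discr K).natAbs = D := by rw [hd]; simp
  have hcl := hC K h2
  rw [habs] at hcl
  set G := PP.filter fun p => jacobiSym (-(D : ℤ)) p = 1 with hG
  have key := pairs_bound h2 hneg hl G (by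
    intro p hp
    rw [hG, mem_filter] at hp
    refine ⟨(hPP p hp.1).1, split_exists h2 (hPP p hp.1).1 (hPP p hp.1).2 ?_⟩
    rw [hd]
    exact hp.2) (PP.image (fun p => (p, p)) ∪ SP PP l D) (by
    intro p hp q hq h
    rw [hG, mem_filter] at hp hq
    rw [mem_union, mem_image]
    by_cases hpq : p = q
    · left
      exact ⟨p, hp.1, by rw [hpq]⟩
    · right
      rw [SP, mem_filter, mem_product]
      refine ⟨⟨hp.1, hq.1⟩, hpq, ?_⟩
      obtain ⟨t, m, hm, e⟩ := h.resolve_left hpq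
      refine ⟨t, m, hm, ?_⟩
      rw [hd, abs_neg, Nat.abs_cast] at e
      exact e)
  have hS : ((PP.image (fun p => (p, p)) ∪ SP PP l D).card : ℝ) ≤ PP.card + (SP PP l D).card := by
    have := (card_union_le (PP.image (fun p => (p, p))) (SP PP l D)).trans
      (Nat.add_le_add_right card_image_le _)
    exact_mod_cast this
  have hT0 : (0 : ℝ) ≤ (Nat.card {c : ClassGroup (𝓞 K) // c ^ l = 1} : ℝ) := Nat.cast_nonneg _
  have key' : (G.card : ℝ) ^ 2 * (Nat.card {c : ClassGroup (𝓞 K) // c ^ l = 1} : ℝ) ≤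
      (Nat.card (ClassGroup (𝓞 K)) : ℝ) *
        ((PP.image (fun p => (p, p)) ∪ SP PP l D).card : ℝ) := by
    have h0 : (((G.card ^ 2 * Nat.card {c : ClassGroup (𝓞 K) // c ^ l = 1} : ℕ)) : ℝ) ≤
        ((Nat.card (ClassGroup (𝓞 K)) * (PP.image (fun p => (p, p)) ∪ SP PP l D).card : ℕ) : ℝ) :=
      Nat.cast_le.2 key
    rw [Nat.cast_mul, Nat.cast_pow, Nat.cast_mul] at h0
    exact h0
  refine arith1 hP' hgood hT0 (key'.trans ?_)
  exact mul_le_mul hcl hS (Nat.cast_nonneg _)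
    (mul_nonneg (mul_nonneg hC0.le (Real.sqrt_nonneg _)) hlog)

theorem tors_all {C : ℝ} (hC0 : 0 < C) (hC : ∀ (K : Type) [Field K] [NumberField K],
    Module.finrank ℚ K = 2 → (Nat.card (ClassGroup (𝓞 K)) : ℝ) ≤
      C * √((discr K).natAbs : ℝ) * Real.log ((discr K).natAbs : ℝ)) (l : ℕ) (D : ℕ) :
    (tors l (-(D : ℤ)) : ℝ) ≤ C * √(D : ℝ) * Real.log D := by
  have hlog : 0 ≤ Real.log (D : ℝ) := Real.log_natCast_nonneg D
  apply tors_le (by positivity)
  intro K _ _ h2 hd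
  have habs : (discr K).natAbs = D := by rw [hd]; simp
  have hcl := hC K h2
  rw [habs] at hcl
  refine le_trans ?_ hcl
  have h1 : Nat.card {c : ClassGroup (𝓞 K) // c ^ l = 1} ≤ Nat.card (ClassGroup (𝓞 K)) :=
    Nat.card_le_card_of_injective _ Subtype.val_injective
  exact_mod_cast h1

/-- few discriminants have large character sums -/
theorem bad_count (PP : Finset ℕ) (y : ℕ) (hy : 1 ≤ y) (hpr : ∀ p ∈ PP, p.Prime)
    (hodd : ∀ p ∈ PP, p ≠ 2) (hle : ∀ p ∈ PP, p ≤ y) (hP : 1 ≤ PP.card) (X H : ℕ) (B : Finset ℕ)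
    (hBs : B ⊆ Ioc X (X + H))
    (hB : ∀ n ∈ B, (PP.card : ℝ) / 4 ≤ |∑ p ∈ PP, ((jacobiSym (-(n : ℤ)) p : ℤ) : ℝ)|) :
    (B.card : ℝ) ≤ 16 * (H / PP.card + 8 * y * (1 + 2 * Real.log y)) := by
  have hP' : (0 : ℝ) < PP.card := by exact_mod_cast hP
  obtain ⟨f, hf, hsum⟩ := Pool.Agent.H568.SP.fam_of_set PP y hpr hodd hle 1 PP.card (by rw [one_mul])
  have hm := Pool.Agent.H568.SP.momA hf hy X H
  rw [Fintype.card_fin, pow_one, pow_one, Nat.cast_one, mul_one] at hm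
  have h1 : ∀ n ∈ B, ((PP.card : ℝ) / 4) ^ 2 ≤ Pool.Agent.H568.SP.BP f (-(n : ℤ)) ^ 2 := by
    intro n hn
    have h2 := hB n hn
    have h3 := hsum (fun p => ((jacobiSym (-(n : ℤ)) p : ℤ) : ℝ))
      (fun p => Pool.Agent.H568.SP.jac_abs_le _ _)
    have h4 : Pool.Agent.H568.SP.BP f (-(n : ℤ)) =
        ∑ i, ∑ j, ((jacobiSym (-(n : ℤ)) (f i j) : ℤ) : ℝ) := by
      unfold Pool.Agent.H568.SP.BP
      rw [Fin.prod_univ_one, Fin.sum_univ_one]
    rw [← sq_abs (Pool.Agent.H568.SP.BP f (-(n : ℤ)))]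
    apply pow_le_pow_left₀ (by positivity)
    rw [h4]
    have h5 : ((PP.card : ℝ) - ((1 : ℕ) : ℝ) * PP.card) = 0 := by push_cast; ring
    rw [h5, add_zero] at h3
    exact h2.trans h3
  have h2 : (B.card : ℝ) * ((PP.card : ℝ) / 4) ^ 2 ≤
      H * PP.card + (PP.card : ℝ) ^ 2 * (8 * y * (1 + 2 * Real.log y)) := by
    calc (B.card : ℝ) * ((PP.card : ℝ) / 4) ^ 2 = ∑ _n ∈ B, ((PP.card : ℝ) / 4) ^ 2 := by
          rw [sum_const, nsmul_eq_mul]
      _ ≤ ∑ n ∈ B, Pool.Agent.H568.SP.BP f (-(n : ℤ)) ^ 2 := sum_le_sum h1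
      _ ≤ ∑ n ∈ Ioc X (X + H), Pool.Agent.H568.SP.BP f (-(n : ℤ)) ^ 2 :=
          sum_le_sum_of_subset_of_nonneg hBs fun n _ _ => sq_nonneg _
      _ ≤ _ := hm
  exact arith2 hP' h2

/-- the discriminants with small character sums have many split primes -/
theorem good_split (PP : Finset ℕ) (hpr : ∀ p ∈ PP, p.Prime) (D : ℕ) (hD : 1 ≤ D)
    (hlog : 2 * Real.log D ≤ (PP.card : ℝ) / 4)
    (h : |∑ p ∈ PP, ((jacobiSym (-(D : ℤ)) p : ℤ) : ℝ)| < (PP.card : ℝ) / 4) :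
    (PP.card : ℝ) / 4 ≤ ((PP.filter fun p => jacobiSym (-(D : ℤ)) p = 1).card : ℝ) := by
  set T := PP.filter fun p => jacobiSym (-(D : ℤ)) p = 1 with hT
  set Z := PP.filter fun p => jacobiSym (-(D : ℤ)) p = 0 with hZ
  have hsum2 : 2 * (T.card : ℝ) = PP.card + ∑ p ∈ PP, ((jacobiSym (-(D : ℤ)) p : ℤ) : ℝ) - Z.card := by
    rw [hT, hZ, card_filter, card_filter, card_eq_sum_ones]
    push_cast
    rw [mul_sum, ← sum_add_distrib, ← sum_sub_distrib]
    refine sum_congr rfl fun p _ => ?_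
    rcases jacobiSym.trichotomy (-(D : ℤ)) p with h | h | h
    · simp [h]
    · simp [h]; norm_num
    · simp [h]
  have hZc := Pool.Agent.H568.SP.card_zero_le (-(D : ℤ)) (by omega) Z (fun p hp => by
    rw [hZ, mem_filter] at hp
    exact hpr p hp.1) (fun p hp => by
    rw [hZ, mem_filter] at hp
    exact hp.2)
  have e : |((-(D : ℤ) : ℤ) : ℝ)| = D := by
    push_cast
    rw [abs_neg, Nat.abs_cast]
  rw [e] at hZc
  have := (abs_lt.1 h).1
  linarith

end Pool.Agent.H568.TS
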