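import Pool.Agent.TH847.LS.Im

set_option autoImplicit false

/-! # Torsion of class groups and pairs of split primes -/

namespace Pool.Agent.H568.TS

open NumberField Finset Pool.Agent.TH847.LS
open scoped Classical nonZeroDivisors

variable {K : Type} [Field K] [NumberField K]

/-- an odd prime modulo which the discriminant is a square is not inert -/
theorem split_exists (h2 : Module.finrank ℚ K = 2) {p : ℕ} (hp : p.Prime) (hp2 : p ≠ 2)
    (hj : jacobiSym (discr K) p = 1) : ∃ P : Ideal (𝓞 K), Ideal.absNorm P = p := by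
  haveI : Fact p.Prime := ⟨hp⟩
  have hp0 : ((p : ℕ) : 𝓞 K) ≠ 0 := Nat.cast_ne_zero.2 hp.ne_zero
  have hnorm : Ideal.absNorm (Ideal.span {((p : ℕ) : 𝓞 K)}) = p ^ 2 := by
    rw [Ideal.absNorm_span_natCast, RingOfIntegers.rank, h2]
  -- the square root modulo `p`
  obtain ⟨s, hs⟩ : ∃ s : ℤ, (p : ℤ) ∣ s ^ 2 - discr K := by
    rw [← jacobiSym.legendreSym.to_jacobiSym] at hj
    have hd0 : (discr K : ZMod p) ≠ 0 := by
      intro h0
      rw [(legendreSym.eq_zero_iff p _).2 h0] at hj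
      norm_num at hj
    rw [legendreSym.eq_one_iff p hd0] at hj
    obtain ⟨r, hr⟩ := hj
    obtain ⟨y, rfl⟩ := ZMod.intCast_surjective r
    refine ⟨y, ?_⟩
    rw [← ZMod.intCast_zmod_eq_zero_iff_dvd]
    push_cast
    rw [hr]
    ring
  have hodd : ∃ a b : ℤ, 2 * a + p * b = 1 := by
    have := hp.eq_two_or_odd.resolve_left hp2
    exact ⟨-((p : ℤ) / 2), 1, by omega⟩
  obtain ⟨a, b, hab⟩ := hodd
  -- `(p)` is not prime
  have hnp : ¬ (Ideal.span {((p : ℕ) : 𝓞 K)}).IsPrime := by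
    intro hP
    set I := Ideal.span {((p : ℕ) : 𝓞 K)} with hI
    have hmem : ∀ x : 𝓞 K, x ∈ I ↔ ((p : ℕ) : 𝓞 K) ∣ x := fun x => Ideal.mem_span_singleton
    have habK : 2 * (a : 𝓞 K) + ((p : ℕ) : 𝓞 K) * (b : 𝓞 K) = 1 := by
      have := congrArg (fun x : ℤ => (x : 𝓞 K)) hab
      push_cast at this
      exact this
    -- from `2 α ≡ u`
    have half : ∀ (α : 𝓞 K) (u : ℤ), 2 * α - (u : 𝓞 K) ∈ I → ∃ c : ℤ, α - (c : 𝓞 K) ∈ I := by
      intro α u hu
      refine ⟨a * u, ?_⟩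
      rw [hmem] at hu ⊢
      have h3 : α - ((a * u : ℤ) : 𝓞 K) =
          (a : 𝓞 K) * (2 * α - (u : 𝓞 K)) + ((p : ℕ) : 𝓞 K) * ((b : 𝓞 K) * α) := by
        push_cast
        linear_combination -α * habK
      rw [h3]
      exact dvd_add (Dvd.dvd.mul_left hu _) (Dvd.intro _ rfl)
    have hall : ∀ α : 𝓞 K, ∃ c : ℤ, α - (c : 𝓞 K) ∈ I := by
      intro α
      by_cases hα : ∃ m : ℤ, α = (m : 𝓞 K)
      · obtain ⟨m, rfl⟩ := hα
        exact ⟨m, by rw [sub_self]; exact I.zero_mem⟩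
      · push Not at hα
        obtain ⟨t, m, hm, e1, e2⟩ := quad_eq h2 α hα
        rw [e2] at e1
        have h3 : (2 * α - (t : 𝓞 K) - (m : 𝓞 K) * (s : 𝓞 K)) *
            (2 * α - (t : 𝓞 K) + (m : 𝓞 K) * (s : 𝓞 K)) ∈ I := by
          rw [hmem]
          obtain ⟨w, hw⟩ := hs
          refine ⟨-((m : 𝓞 K) ^ 2 * (w : 𝓞 K)), ?_⟩
          have hw' : (s : 𝓞 K) ^ 2 - ((discr K : ℤ) : 𝓞 K) = ((p : ℕ) : 𝓞 K) * (w : 𝓞 K) := by
            have := congrArg (fun x : ℤ => (x : 𝓞 K)) hw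
            push_cast at this
            exact this
          push_cast at e1
          linear_combination e1 - (m : 𝓞 K) ^ 2 * hw'
        rcases hP.mem_or_mem h3 with h4 | h4
        · refine half α (t + m * s) ?_
          have : 2 * α - ((t + m * s : ℤ) : 𝓞 K) =
              2 * α - (t : 𝓞 K) - (m : 𝓞 K) * (s : 𝓞 K) := by push_cast; ring
          rw [this]
          exact h4
        · refine half α (t - m * s) ?_
          have : 2 * α - ((t - m * s : ℤ) : 𝓞 K) =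
              2 * α - (t : 𝓞 K) + (m : 𝓞 K) * (s : 𝓞 K) := by push_cast; ring
          rw [this]
          exact h4
    -- the quotient has at most `p` elements
    have hcard : Nat.card (𝓞 K ⧸ I) ≤ p := by
      have hsurj : Function.Surjective (fun c : Fin p => (Ideal.Quotient.mk I ((c : ℕ) : 𝓞 K))) := by
        intro x
        obtain ⟨α, rfl⟩ := Ideal.Quotient.mk_surjective x
        obtain ⟨c, hc⟩ := hall α
        have hpz : (0 : ℤ) < p := by exact_mod_cast hp.pos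
        have h5 : 0 ≤ c % p := Int.emod_nonneg _ hpz.ne'
        have h6 : c % p < p := Int.emod_lt_of_pos _ hpz
        refine ⟨⟨(c % p).toNat, by omega⟩, ?_⟩
        simp only
        rw [Ideal.Quotient.eq]
        have h7 : (((c % p).toNat : ℕ) : 𝓞 K) = ((c % p : ℤ) : 𝓞 K) := by
          have : (((c % p).toNat : ℕ) : ℤ) = c % p := Int.toNat_of_nonneg h5
          rw [← this]
          push_cast
          rfl
        rw [h7]
        have h8 : (c : 𝓞 K) = ((c % p : ℤ) : 𝓞 K) + ((p : ℕ) : 𝓞 K) * ((c / p : ℤ) : 𝓞 K) := by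
          have := congrArg (fun x : ℤ => (x : 𝓞 K)) (Int.emod_add_mul_ediv c p)
          push_cast at this ⊢
          exact this.symm
        have h9 : ((c % p : ℤ) : 𝓞 K) - α = -(α - (c : 𝓞 K)) -
            ((p : ℕ) : 𝓞 K) * ((c / p : ℤ) : 𝓞 K) := by
          rw [h8]; ring
        rw [h9]
        refine I.sub_mem (I.neg_mem hc) ?_
        rw [hmem]
        exact Dvd.intro _ rfl
      have h10 := Nat.card_le_card_of_surjective _ hsurj
      rwa [Nat.card_fin] at h10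
    have h11 : Nat.card (𝓞 K ⧸ I) = p ^ 2 := by
      rw [← hnorm, Ideal.absNorm_apply, Submodule.cardQuot_apply]
    rw [h11] at hcard
    have := hp.one_lt
    nlinarith
  -- a prime ideal above `p`
  have htop : Ideal.span {((p : ℕ) : 𝓞 K)} ≠ ⊤ := by
    intro h
    rw [h, Ideal.absNorm_top] at hnorm
    have := hp.one_lt
    nlinarith
  obtain ⟨P, hPm, hle⟩ := Ideal.exists_le_maximal _ htop
  obtain ⟨J, hJ⟩ := Ideal.dvd_iff_le.2 hle
  have hmul : Ideal.absNorm P * Ideal.absNorm J = p ^ 2 := by rw [← map_mul, ← hJ, hnorm]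
  have hdvd : Ideal.absNorm P ∣ p ^ 2 := Dvd.intro _ hmul
  obtain ⟨k, hk, hk'⟩ := (Nat.dvd_prime_pow hp).1 hdvd
  have hk01 : k = 0 ∨ k = 1 ∨ k = 2 := by omega
  rcases hk01 with rfl | rfl | rfl
  · rw [pow_zero] at hk'
    exact absurd (Ideal.absNorm_eq_one_iff.1 hk') hPm.ne_top
  · exact ⟨P, by rw [hk', pow_one]⟩
  · exfalso
    rw [hk'] at hmul
    have h12 : Ideal.absNorm J = 1 := by
      have h13 : 0 < p ^ 2 := pow_pos hp.pos 2
      exact Nat.eq_of_mul_eq_mul_left h13 (by rw [hmul, mul_one])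
    rw [Ideal.absNorm_eq_one_iff] at h12
    rw [h12, Ideal.mul_top] at hJ
    exact hnp (hJ ▸ hPm.isPrime)

/-- pairs of primes which are equal or give a representation -/
theorem pairs_bound (h2 : Module.finrank ℚ K = 2) (hd : discr K < 0) {l : ℕ} (hl : Odd l)
    (G : Finset ℕ) (hG : ∀ p ∈ G, p.Prime ∧ ∃ P : Ideal (𝓞 K), Ideal.absNorm P = p)
    (S : Finset (ℕ × ℕ)) (hS : ∀ p ∈ G, ∀ q ∈ G,
      (p = q ∨ ∃ t m : ℤ, m ≠ 0 ∧ t ^ 2 + m ^ 2 * |discr K| = 4 * ((p : ℤ) * q) ^ l) → (p, q) ∈ S) :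
    G.card ^ 2 * Nat.card {c : ClassGroup (𝓞 K) // c ^ l = 1} ≤
      Nat.card (ClassGroup (𝓞 K)) * S.card := by
  have hex : ∀ p : {p // p ∈ G}, ∃ P J : (Ideal (𝓞 K))⁰,
      (P : Ideal (𝓞 K)) * (J : Ideal (𝓞 K)) = Ideal.span {((p.1 : ℕ) : 𝓞 K)} ∧
      Ideal.absNorm (P : Ideal (𝓞 K)) = p.1 ∧ Ideal.absNorm (J : Ideal (𝓞 K)) = p.1 := by
    rintro ⟨p, hp⟩
    obtain ⟨h1, P, hP⟩ := hG p hp
    obtain ⟨J, a, b, c, d⟩ := cofactor h2 h1 hP
    exact ⟨⟨P, mem_nonZeroDivisors_of_ne_zero d⟩, ⟨J, mem_nonZeroDivisors_of_ne_zero c⟩,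
      a, hP, b⟩
  choose P J hPJ hP hJ using hex
  have hPJ1 : ∀ p, ClassGroup.mk0 (P p) * ClassGroup.mk0 (J p) = 1 := by
    intro p
    rw [← map_mul, ClassGroup.mk0_eq_one_iff]
    exact ⟨⟨_, hPJ p⟩⟩
  -- pairs in the same coset
  have hpair : ∀ p q : {p // p ∈ G}, ClassGroup.mk0 (P p) ^ l = ClassGroup.mk0 (P q) ^ l →
      (p.1, q.1) ∈ S := by
    intro p q h3
    apply hS p.1 p.2 q.1 q.2
    by_cases hpq : p.1 = q.1
    · exact Or.inl hpq
    right
    have h4 : ClassGroup.mk0 (P p ^ l * J q ^ l) = 1 := by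
      rw [map_mul, map_pow, map_pow, h3, ← mul_pow, hPJ1, one_pow]
    rw [ClassGroup.mk0_eq_one_iff] at h4
    obtain ⟨α, hα⟩ := h4.principal
    have hα' : (P p : Ideal (𝓞 K)) ^ l * (J q : Ideal (𝓞 K)) ^ l = Ideal.span {α} := hα
    have h5 : (Algebra.norm ℤ α).natAbs = (p.1 * q.1) ^ l := by
      rw [← Ideal.absNorm_span_singleton, ← hα', map_mul, map_pow, map_pow, hP, hJ, mul_pow]
    have hnotint : ∀ m : ℤ, α ≠ (m : 𝓞 K) := by
      intro m hm
      rw [hm, norm_int h2, Int.natAbs_pow] at h5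
      exact hpq (eq_of_sq (hG p.1 p.2).1 (hG q.1 q.2).1 hl h5)
    obtain ⟨t, m, hm, -, e2⟩ := quad_eq h2 α hnotint
    refine ⟨t, m, hm, ?_⟩
    rw [abs_of_neg hd]
    have hN : 0 ≤ Algebra.norm ℤ α := by
      have : 0 ≤ t ^ 2 - m ^ 2 * discr K := by
        have := mul_nonneg (sq_nonneg m) (neg_nonneg.2 hd.le)
        nlinarith [sq_nonneg t]
      linarith
    have h6 : Algebra.norm ℤ α = ((p.1 : ℤ) * q.1) ^ l := by
      have h7 : ((Algebra.norm ℤ α).natAbs : ℤ) = Algebra.norm ℤ α := Int.natAbs_of_nonneg hN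
      rw [← h7, h5]
      push_cast
      ring
    rw [h6] at e2
    linear_combination e2
  -- counting
  set T := {c : ClassGroup (𝓞 K) // c ^ l = 1} with hT
  set φ : {p // p ∈ G} × T → ClassGroup (𝓞 K) := fun x => ClassGroup.mk0 (P x.1) * x.2.1 with hφ
  have hcs : (Fintype.card ({p // p ∈ G} × T)) ^ 2 ≤
      Fintype.card (ClassGroup (𝓞 K)) *
        ∑ g : ClassGroup (𝓞 K), ((univ.filter fun x => φ x = g).card) ^ 2 := by
    have h1 : Fintype.card ({p // p ∈ G} × T) =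
        ∑ g : ClassGroup (𝓞 K), (univ.filter fun x => φ x = g).card := by
      rw [← Finset.card_univ]
      exact Finset.card_eq_sum_card_fiberwise (fun x _ => mem_univ _)
    rw [h1]
    exact sq_sum_le_card_mul_sum_sq
  have hpairs : ∑ g : ClassGroup (𝓞 K), ((univ.filter fun x => φ x = g).card) ^ 2 =
      (univ.filter fun x : ({p // p ∈ G} × T) × ({p // p ∈ G} × T) => φ x.1 = φ x.2).card := by
    rw [Finset.card_eq_sum_card_fiberwise (f := fun x => φ x.1) (t := univ)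
      (fun x _ => mem_univ _)]
    refine sum_congr rfl fun g _ => ?_
    rw [sq, ← Finset.card_product]
    congr 1
    ext ⟨x, y⟩
    simp only [mem_product, mem_filter, mem_univ, true_and]
    constructor
    · rintro ⟨h1, h2⟩
      exact ⟨h1.trans h2.symm, h1⟩
    · rintro ⟨h1, h2⟩
      exact ⟨h2, h1 ▸ h2⟩
  have hinj : (univ.filter fun x : ({p // p ∈ G} × T) × ({p // p ∈ G} × T) => φ x.1 = φ x.2).card ≤
      (S ×ˢ (univ : Finset T)).card := by
    refine Finset.card_le_card_of_injOn (fun x => ((x.1.1.1, x.2.1.1), x.1.2)) ?_ ?_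
    · rintro ⟨⟨p, c⟩, ⟨q, c'⟩⟩ h
      simp only [coe_filter, mem_univ, true_and, Set.mem_ofPred_eq] at h
      simp only [coe_product, Set.mem_prod, mem_coe, mem_univ, and_true]
      apply hpair p q
      have h1 := congrArg (fun x => x ^ l) h
      simp only [hφ, mul_pow, c.2, c'.2, mul_one] at h1
      exact h1
    · rintro ⟨⟨p, c⟩, ⟨q, c'⟩⟩ h ⟨⟨p1, c1⟩, ⟨q1, c1'⟩⟩ h' heq
      simp only [coe_filter, mem_univ, true_and, Set.mem_ofPred_eq] at h h'
      simp only [Prod.mk.injEq] at heq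
      obtain ⟨⟨e1, e2⟩, e3⟩ := heq
      have e1' : p = p1 := Subtype.ext e1
      have e2' : q = q1 := Subtype.ext e2
      subst e1' e2' e3
      have h3 : c' = c1' := by
        apply Subtype.ext
        have : ClassGroup.mk0 (P q) * c'.1 = ClassGroup.mk0 (P q) * c1'.1 := by
          have a1 : φ (q, c') = φ (q, c1') := h.symm.trans h'
          exact a1
        exact mul_left_cancel this
      rw [h3]
  rw [hpairs] at hcs
  have hfin := hcs.trans (Nat.mul_le_mul_left _ hinj)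
  rw [Fintype.card_prod, Fintype.card_coe, Finset.card_product, Finset.card_univ] at hfin
  rw [Nat.card_eq_fintype_card, Nat.card_eq_fintype_card]
  have hTpos : 0 < Fintype.card T := Fintype.card_pos_iff.2 ⟨⟨1, one_pow l⟩⟩
  have h9 : (G.card ^ 2 * Fintype.card T) * Fintype.card T ≤
      (Fintype.card (ClassGroup (𝓞 K)) * S.card) * Fintype.card T := by
    calc (G.card ^ 2 * Fintype.card T) * Fintype.card T = (G.card * Fintype.card T) ^ 2 := by ring
      _ ≤ Fintype.card (ClassGroup (𝓞 K)) * (S.card * Fintype.card T) := hfin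
      _ = _ := by ring
  exact Nat.le_of_mul_le_mul_right h9 hTpos

end Pool.Agent.H568.TS
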