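import Mathlib

set_option autoImplicit false

/-! # Counting the representations `y² + z² D = 4 (p q)^l` with `D` in a short interval -/

namespace Pool.Agent.H568.TS

open Finset

/-- one step of the descent -/
theorem descent_step {p q : ℕ} (hp : p.Prime) (hq : q.Prime) (hp2 : p ≠ 2) (hpq : p ≠ q)
    (D z y i j : ℕ) (hi : Odd i) (h : y ^ 2 + z ^ 2 * D = 4 * (p ^ i * q ^ j)) (hpz : p ∣ z) :
    ∃ y1 z1 i1 : ℕ, z = p * z1 ∧ i = i1 + 2 ∧ y1 ^ 2 + z1 ^ 2 * D = 4 * (p ^ i1 * q ^ j) := by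
  obtain ⟨z1, rfl⟩ := hpz
  obtain ⟨i0, rfl⟩ : ∃ i0, i = i0 + 1 := ⟨i - 1, by have := hi.pos; omega⟩
  have hpy : p ∣ y := by
    have h1 : p ∣ y ^ 2 := by
      have h2 : p ∣ (p * z1) ^ 2 * D := by
        rw [mul_pow, sq p, mul_assoc, mul_assoc]
        exact Dvd.intro _ rfl
      have h3 : p ∣ y ^ 2 + (p * z1) ^ 2 * D := by
        rw [h, pow_succ]
        exact ⟨4 * (p ^ i0 * q ^ j), by ring⟩
      exact (Nat.dvd_add_left h2).1 h3
    exact hp.dvd_of_dvd_pow h1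
  obtain ⟨y1, rfl⟩ := hpy
  have h4 : p * (p * (y1 ^ 2 + z1 ^ 2 * D)) = p * (4 * (p ^ i0 * q ^ j)) := by
    calc p * (p * (y1 ^ 2 + z1 ^ 2 * D)) = (p * y1) ^ 2 + (p * z1) ^ 2 * D := by ring
      _ = 4 * (p ^ (i0 + 1) * q ^ j) := h
      _ = _ := by ring
  have h5 := Nat.eq_of_mul_eq_mul_left hp.pos h4
  rcases Nat.eq_zero_or_pos i0 with rfl | hi0
  · exfalso
    rw [pow_zero, one_mul] at h5
    have h6 : p ∣ 4 * q ^ j := by rw [← h5]; exact Dvd.intro _ rfl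
    rcases (Nat.Prime.dvd_mul hp).1 h6 with h7 | h7
    · have h8 : p ∣ 2 := by
        have : (4 : ℕ) = 2 ^ 2 := by norm_num
        rw [this] at h7
        exact hp.dvd_of_dvd_pow h7
      exact hp2 ((Nat.prime_dvd_prime_iff_eq hp Nat.prime_two).1 h8)
    · exact hpq ((Nat.prime_dvd_prime_iff_eq hp hq).1 (hp.dvd_of_dvd_pow h7))
  · obtain ⟨i1, rfl⟩ : ∃ i1, i0 = i1 + 1 := ⟨i0 - 1, by omega⟩
    refine ⟨y1, z1, i1, rfl, rfl, ?_⟩
    have h6 : p * (y1 ^ 2 + z1 ^ 2 * D) = p * (4 * (p ^ i1 * q ^ j)) := by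
      rw [h5]; ring
    exact Nat.eq_of_mul_eq_mul_left hp.pos h6

theorem descent {p q : ℕ} (hp : p.Prime) (hq : q.Prime) (hp2 : p ≠ 2) (hq2 : q ≠ 2) (hpq : p ≠ q)
    (D : ℕ) : ∀ z y i j : ℕ, 1 ≤ z → Odd i → Odd j → y ^ 2 + z ^ 2 * D = 4 * (p ^ i * q ^ j) →
      ∃ y' z' i' j' : ℕ, 1 ≤ z' ∧ i' ≤ i ∧ j' ≤ j ∧
        y' ^ 2 + z' ^ 2 * D = 4 * (p ^ i' * q ^ j') ∧ ¬ p ∣ z' ∧ ¬ q ∣ z' := by
  intro z
  induction z using Nat.strong_induction_on with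
  | _ z ih =>
    intro y i j hz hi hj h
    by_cases hpz : p ∣ z
    · obtain ⟨y1, z1, i1, h1, h2, h3⟩ := descent_step hp hq hp2 hpq D z y i j hi h hpz
      have hz1 : 1 ≤ z1 := by
        rcases Nat.eq_zero_or_pos z1 with h0 | h0
        · rw [h0] at h1; omega
        · exact h0
      have hlt : z1 < z := by
        rw [h1]
        have := hp.one_lt
        nlinarith
      have hi1 : Odd i1 := by
        rw [h2] at hi
        obtain ⟨k, hk⟩ := hi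
        exact ⟨k - 1, by omega⟩
      obtain ⟨y', z', i', j', a1, a2, a3, a4⟩ := ih z1 hlt y1 i1 j hz1 hi1 hj h3
      exact ⟨y', z', i', j', a1, by omega, a3, a4⟩
    · by_cases hqz : q ∣ z
      · have h' : y ^ 2 + z ^ 2 * D = 4 * (q ^ j * p ^ i) := by rw [h]; ring
        obtain ⟨y1, z1, j1, h1, h2, h3⟩ :=
          descent_step hq hp hq2 (Ne.symm hpq) D z y j i hj h' hqz
        have hz1 : 1 ≤ z1 := by
          rcases Nat.eq_zero_or_pos z1 with h0 | h0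
          · rw [h0] at h1; omega
          · exact h0
        have hlt : z1 < z := by
          rw [h1]
          have := hq.one_lt
          nlinarith
        have hj1 : Odd j1 := by
          rw [h2] at hj
          obtain ⟨k, hk⟩ := hj
          exact ⟨k - 1, by omega⟩
        have h3' : y1 ^ 2 + z1 ^ 2 * D = 4 * (p ^ i * q ^ j1) := by rw [h3]; ring
        obtain ⟨y', z', i', j', a1, a2, a3, a4⟩ := ih z1 hlt y1 i j1 hz1 hi hj1 h3'
        exact ⟨y', z', i', j', a1, a2, by omega, a4⟩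
      · exact ⟨y, z, i, j, hz, le_rfl, le_rfl, h, hpz, hqz⟩

/-- the `y` with `y² + z² D = N` for some `D` in the interval -/
def AA (X H N z : ℕ) : Finset ℕ :=
  (range (N + 1)).filter fun y => ∃ D ∈ Ioc X (X + H), y ^ 2 + z ^ 2 * D = N

theorem mem_AA {X H N z y : ℕ} : y ∈ AA X H N z ↔ ∃ D, (X < D ∧ D ≤ X + H) ∧ y ^ 2 + z ^ 2 * D = N := by
  rw [AA, mem_filter, mem_range]
  constructor
  · rintro ⟨_, D, hD, h⟩
    exact ⟨D, mem_Ioc.1 hD, h⟩
  · rintro ⟨D, hD, h⟩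
    refine ⟨?_, D, mem_Ioc.2 hD, h⟩
    have : y ≤ y ^ 2 := Nat.le_self_pow (by norm_num) y
    omega

theorem dvd_four {X H M z : ℕ} (hz : 1 ≤ z) (hMz : Nat.Coprime M z) {a b c : ℕ}
    (ha : a ∈ AA X H (4 * M) z) (hb : b ∈ AA X H (4 * M) z) (hc : c ∈ AA X H (4 * M) z)
    (hg : Int.gcd ((z : ℤ) ^ 2) ((a : ℤ) - b) = Int.gcd ((z : ℤ) ^ 2) ((a : ℤ) - c)) :
    ((z : ℤ) ^ 2) ∣ 4 * ((c : ℤ) - b) := by
  obtain ⟨Da, _, ha⟩ := mem_AA.1 ha
  obtain ⟨Db, _, hb⟩ := mem_AA.1 hb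
  obtain ⟨Dc, _, hc⟩ := mem_AA.1 hc
  have ha' : (a : ℤ) ^ 2 + (z : ℤ) ^ 2 * Da = 4 * M := by exact_mod_cast ha
  have hb' : (b : ℤ) ^ 2 + (z : ℤ) ^ 2 * Db = 4 * M := by exact_mod_cast hb
  have hc' : (c : ℤ) ^ 2 + (z : ℤ) ^ 2 * Dc = 4 * M := by exact_mod_cast hc
  have hz0 : (z : ℤ) ^ 2 ≠ 0 := by positivity
  set u : ℕ := Int.gcd ((z : ℤ) ^ 2) ((a : ℤ) - b) with hu
  have hu0 : 0 < u := Int.gcd_pos_of_ne_zero_left _ hz0
  have hu0' : (u : ℤ) ≠ 0 := by exact_mod_cast hu0.ne'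
  -- the general step
  have key : ∀ e : ℤ, u = Int.gcd ((z : ℤ) ^ 2) ((a : ℤ) - e) →
      ((z : ℤ) ^ 2) ∣ ((a : ℤ) - e) * ((a : ℤ) + e) → (u : ℤ) ∣ (a : ℤ) - e ∧
        ((z : ℤ) ^ 2 / u) ∣ (a : ℤ) + e := by
    intro e he hdvd
    have h1 : (u : ℤ) ∣ (a : ℤ) - e := by rw [he]; exact Int.gcd_dvd_right _ _
    have h2 : (u : ℤ) ∣ (z : ℤ) ^ 2 := by rw [he]; exact Int.gcd_dvd_left _ _
    refine ⟨h1, ?_⟩
    have hcop : Int.gcd ((z : ℤ) ^ 2 / u) (((a : ℤ) - e) / u) = 1 := by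
      have h3 : 0 < Int.gcd ((z : ℤ) ^ 2) ((a : ℤ) - e) := by rw [← he]; exact hu0
      have h4 := Int.gcd_div_gcd_div_gcd h3
      rw [← he] at h4
      exact h4
    obtain ⟨v, hv⟩ := h2
    obtain ⟨w, hw⟩ := h1
    rw [hv, Int.mul_ediv_cancel_left _ hu0', hw, Int.mul_ediv_cancel_left _ hu0'] at hcop
    rw [hv, Int.mul_ediv_cancel_left _ hu0']
    rw [hv, hw, mul_assoc] at hdvd
    have h5 : v ∣ w * ((a : ℤ) + e) := (mul_dvd_mul_iff_left hu0').1 hdvd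
    exact (Int.isCoprime_iff_gcd_eq_one.2 hcop).dvd_of_dvd_mul_left h5
  obtain ⟨u1, v1⟩ := key b hu ⟨(Db : ℤ) - Da, by linear_combination ha' - hb'⟩
  obtain ⟨u2, v2⟩ := key c (hu.trans hg) ⟨(Dc : ℤ) - Da, by linear_combination ha' - hc'⟩
  have huz : (u : ℤ) ∣ (z : ℤ) ^ 2 := by rw [hu]; exact Int.gcd_dvd_left _ _
  obtain ⟨v, hv⟩ := huz
  rw [hv, Int.mul_ediv_cancel_left _ hu0'] at v1 v2
  have hubc : (u : ℤ) ∣ (c : ℤ) - b := by
    have := dvd_sub u1 u2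
    have e : ((a : ℤ) - b) - ((a : ℤ) - c) = c - b := by ring
    rwa [e] at this
  have hvbc : v ∣ (c : ℤ) - b := by
    have := dvd_sub v2 v1
    have e : ((a : ℤ) + c) - ((a : ℤ) + b) = c - b := by ring
    rwa [e] at this
  -- the gcd
  set g : ℕ := Int.gcd u v with hgdef
  have hgu : (g : ℤ) ∣ u := Int.gcd_dvd_left _ _
  have hgv : (g : ℤ) ∣ v := Int.gcd_dvd_right _ _
  have hg2a : (g : ℤ) ∣ 2 * a := by
    have := dvd_add (hgu.trans u1) (hgv.trans v1)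
    have e : ((a : ℤ) - b) + ((a : ℤ) + b) = 2 * a := by ring
    rwa [e] at this
  have hgz : g ∣ z := by
    have h1 : (g : ℤ) ^ 2 ∣ (z : ℤ) ^ 2 := by
      rw [hv, sq]
      exact mul_dvd_mul hgu hgv
    have h2 : g ^ 2 ∣ z ^ 2 := by exact_mod_cast h1
    exact (Nat.pow_dvd_pow_iff (by norm_num)).1 h2
  have hg4 : g ∣ 4 := by
    have h1 : (g : ℤ) ^ 2 ∣ 16 * M := by
      have e : (16 * M : ℤ) = (2 * a) ^ 2 + (z : ℤ) ^ 2 * (4 * Da) := by linear_combination -4 * ha'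
      rw [e]
      refine dvd_add (pow_dvd_pow_of_dvd hg2a 2) (Dvd.dvd.mul_right ?_ _)
      exact pow_dvd_pow_of_dvd (by exact_mod_cast hgz) 2
    have h2 : g ^ 2 ∣ 4 ^ 2 * M := by exact_mod_cast h1
    have h3 : Nat.Coprime (g ^ 2) M := by
      apply Nat.Coprime.pow_left
      exact (Nat.Coprime.coprime_dvd_right hgz hMz).symm
    have h4 : g ^ 2 ∣ 4 ^ 2 := h3.dvd_of_dvd_mul_right h2
    exact (Nat.pow_dvd_pow_iff (by norm_num)).1 h4
  -- conclusion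
  obtain ⟨r, hr⟩ := hgu
  have hcop : IsCoprime (r : ℤ) (v / g) := by
    have hg0 : 0 < Int.gcd (u : ℤ) v := Int.gcd_pos_of_ne_zero_left _ hu0'
    have h4 := Int.gcd_div_gcd_div_gcd hg0
    have hgne : (g : ℤ) ≠ 0 := by
      rw [hgdef]; exact_mod_cast hg0.ne'
    rw [← hgdef] at h4
    rw [hr, Int.mul_ediv_cancel_left _ hgne] at h4
    exact Int.isCoprime_iff_gcd_eq_one.2 h4
  obtain ⟨s, hs⟩ := hgv
  have hgne : (g : ℤ) ≠ 0 := by
    intro h0
    rw [h0, zero_mul] at hr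
    exact hu0' hr
  rw [hs, Int.mul_ediv_cancel_left _ hgne] at hcop
  -- `g r s ∣ c - b`
  have hlcm : (g : ℤ) * (r * s) ∣ (c : ℤ) - b := by
    obtain ⟨k, hk⟩ := hubc
    rw [hr] at hk
    rw [hk] at hvbc ⊢
    rw [hs, mul_assoc, mul_dvd_mul_iff_left hgne] at hvbc
    rw [mul_assoc, mul_dvd_mul_iff_left hgne]
    exact mul_dvd_mul_left r (hcop.symm.dvd_of_dvd_mul_left hvbc)
  rw [hv, hr, hs]
  have h5 : (g : ℤ) * r * (g * s) = g * (g * (r * s)) := by ring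
  rw [h5]
  exact mul_dvd_mul (by exact_mod_cast hg4) hlcm

/-- a set of numbers in one class and in a short interval -/
theorem fiber_card (B : Finset ℕ) (z : ℕ) (H : ℕ) (hz : 1 ≤ z)
    (h1 : ∀ b ∈ B, ∀ c ∈ B, ((z : ℤ) ^ 2) ∣ 4 * ((c : ℤ) - b))
    (h2 : ∀ b ∈ B, ∀ c ∈ B, b ≤ c → (c - b) ^ 2 ≤ z ^ 2 * H) :
    (B.card : ℝ) ≤ 4 * Real.sqrt H / z + 1 := by
  have hz' : (0 : ℝ) < z := by exact_mod_cast hz
  rcases B.eq_empty_or_nonempty with rfl | hne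
  · simp; positivity
  set b0 := B.min' hne with hb0
  have hb0m : b0 ∈ B := B.min'_mem hne
  have hle : ∀ c ∈ B, b0 ≤ c := fun c hc => B.min'_le c hc
  have hex : ∀ c ∈ B, z ^ 2 * (4 * (c - b0) / z ^ 2) = 4 * (c - b0) := by
    intro c hc
    apply Nat.mul_div_cancel'
    have := h1 b0 hb0m c hc
    have e : (4 * ((c : ℤ) - b0)) = ((4 * (c - b0) : ℕ) : ℤ) := by
      have := hle c hc
      push_cast
      rw [Nat.cast_sub this]
    rw [e] at this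
    exact_mod_cast this
  have hcard : B.card ≤ (range (⌊4 * Real.sqrt H / z⌋₊ + 1)).card := by
    refine card_le_card_of_injOn (fun c => 4 * (c - b0) / z ^ 2) ?_ ?_
    · intro c hc
      have hc' : c ∈ B := hc
      rw [mem_coe, mem_range, Nat.lt_succ_iff]
      apply Nat.le_floor
      have e1 := hex c hc'
      have e2 := h2 b0 hb0m c hc' (hle c hc')
      have e3 : ((c - b0 : ℕ) : ℝ) ≤ z * Real.sqrt H := by
        have : (((c - b0 : ℕ) : ℝ)) ^ 2 ≤ (z * Real.sqrt H) ^ 2 := by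
          rw [mul_pow, Real.sq_sqrt (Nat.cast_nonneg _)]
          exact_mod_cast e2
        exact (pow_le_pow_iff_left₀ (Nat.cast_nonneg _) (by positivity) (by norm_num)).1 this
      have e4 : (z : ℝ) ^ 2 * ((4 * (c - b0) / z ^ 2 : ℕ) : ℝ) = 4 * ((c - b0 : ℕ) : ℝ) := by
        exact_mod_cast e1
      rw [le_div_iff₀ hz']
      have e5 : (z : ℝ) * (((4 * (c - b0) / z ^ 2 : ℕ) : ℝ) * z) ≤ z * (4 * Real.sqrt H) := by
        nlinarith
      exact le_of_mul_le_mul_left e5 hz'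
    · intro c hc c' hc' h
      have hc1 : c ∈ B := hc
      have hc2 : c' ∈ B := hc'
      simp only at h
      have e1 := hex c hc1
      have e2 := hex c' hc2
      rw [h] at e1
      have := hle c hc1
      have := hle c' hc2
      omega
  rw [card_range] at hcard
  calc (B.card : ℝ) ≤ ((⌊4 * Real.sqrt H / z⌋₊ + 1 : ℕ) : ℝ) := by exact_mod_cast hcard
    _ = (⌊4 * Real.sqrt H / z⌋₊ : ℝ) + 1 := by push_cast; ring
    _ ≤ _ := by
        gcongr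
        exact Nat.floor_le (by positivity)

theorem AA_card {X H M z : ℕ} (hz : 1 ≤ z) (hMz : Nat.Coprime M z) :
    ((AA X H (4 * M) z).card : ℝ) ≤ ((z ^ 2).divisors.card : ℝ) * (4 * Real.sqrt H / z + 1) := by
  classical
  rcases (AA X H (4 * M) z).eq_empty_or_nonempty with h0 | ⟨a, ha⟩
  · rw [h0]
    simp
    positivity
  have hfib : (AA X H (4 * M) z).card = ∑ u ∈ (z ^ 2).divisors,
      ((AA X H (4 * M) z).filter fun b : ℕ => Int.gcd ((z : ℤ) ^ 2) ((a : ℤ) - b) = u).card := by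
    apply card_eq_sum_card_fiberwise
    intro b _
    rw [mem_coe, Nat.mem_divisors]
    refine ⟨?_, by positivity⟩
    have h1 := Int.gcd_dvd_left ((z : ℤ) ^ 2) ((a : ℤ) - b)
    exact_mod_cast h1
  rw [hfib]
  push_cast
  calc ∑ u ∈ (z ^ 2).divisors,
      (((AA X H (4 * M) z).filter fun b : ℕ => Int.gcd ((z : ℤ) ^ 2) ((a : ℤ) - b) = u).card : ℝ) ≤
      ∑ _u ∈ (z ^ 2).divisors, (4 * Real.sqrt H / z + 1) := by
        refine sum_le_sum fun u _ => ?_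
        apply fiber_card _ z H hz
        · intro b hb c hc
          rw [mem_filter] at hb hc
          exact dvd_four hz hMz ha hb.1 hc.1 (hb.2.trans hc.2.symm)
        · intro b hb c hc hbc
          rw [mem_filter] at hb hc
          obtain ⟨Db, hDb, eb⟩ := mem_AA.1 hb.1
          obtain ⟨Dc, hDc, ec⟩ := mem_AA.1 hc.1
          have h1 : c ^ 2 + z ^ 2 * Dc = b ^ 2 + z ^ 2 * Db := by rw [eb, ec]
          have h2 : z ^ 2 * Db ≤ z ^ 2 * Dc + z ^ 2 * H := by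
            rw [← mul_add]
            exact Nat.mul_le_mul_left _ (by omega)
          have h3 : (c - b) ^ 2 + b ^ 2 ≤ c ^ 2 := by
            obtain ⟨k, rfl⟩ := Nat.exists_eq_add_of_le hbc
            rw [Nat.add_sub_cancel_left]
            nlinarith
          omega
    _ = _ := by rw [sum_const, nsmul_eq_mul]

end Pool.Agent.H568.TS
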