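import Pool.Agent.H568.TS.Pt

set_option autoImplicit false

/-! # The average of the torsion in short intervals -/

namespace Pool.Agent.H568.TS

open Finset Filter Real Pool.Agent.H568.SP
open scoped Classical

theorem ev_log_le (c a : ℝ) (hc : 0 < c) (ha : 0 < a) : ∀ᶠ X : ℝ in atTop, log X ≤ c * X ^ a := by
  have h := (isLittleO_log_rpow_atTop ha).def hc
  filter_upwards [h, eventually_ge_atTop 1] with Y hY hY1
  rw [norm_of_nonneg (log_nonneg hY1), norm_of_nonneg (by positivity)] at hY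
  exact hY

/-- the final inequality, from the bounds for its parts -/
theorem combine {C1 C2 K q X X4 L P H tot bad h lr : ℝ} (hC1 : 0 < C1) (hC2 : 0 ≤ C2) (hK : 0 ≤ K)
    (hlr : 0 ≤ lr) (hP : 0 < P) (hL : 1 ≤ L) (hq : 0 ≤ q) (hX4 : 1 ≤ X4) (hh0 : 0 ≤ h)
    (hh : h ≤ 4 * C1 * √X * L) (hHP : H / P ≤ q * X4)
    (htot : tot ≤ P ^ 2 * (lr * (C2 * X4 * (q * (12 * L + K * L)))))
    (hbad : bad ≤ 16 * (q * X4 + 16 * (q * (1 + 4 * L)))) :
    16 * h * (H / P + tot / P ^ 2) + h * bad ≤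
      (4 * C1 * (16 + 16 * (lr * C2 * (12 + K)) + 1296) * L ^ 2) * (√X * X4 * q) := by
  have hL0 : 0 ≤ L := by linarith
  have hX40 : 0 ≤ X4 := by linarith
  have h1 : tot / P ^ 2 ≤ lr * (C2 * X4 * (q * (12 * L + K * L))) := by
    rw [div_le_iff₀ (by positivity), mul_comm]
    exact htot
  have h2 : 16 * h * (H / P + tot / P ^ 2) + h * bad ≤
      h * (16 * (q * X4 + lr * (C2 * X4 * (q * (12 * L + K * L)))) +
        16 * (q * X4 + 16 * (q * (1 + 4 * L)))) := by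
    have e1 : 16 * h * (H / P + tot / P ^ 2) + h * bad =
        h * (16 * (H / P + tot / P ^ 2) + bad) := by ring
    rw [e1]
    apply mul_le_mul_of_nonneg_left _ hh0
    linarith
  have hqX : 0 ≤ q * X4 := by positivity
  have h3 : q ≤ q * X4 := le_mul_of_one_le_right hq hX4
  have h4 : 16 * (q * X4 + lr * (C2 * X4 * (q * (12 * L + K * L)))) +
        16 * (q * X4 + 16 * (q * (1 + 4 * L))) ≤
      ((16 + 16 * (lr * C2 * (12 + K)) + 1296) * L) * (X4 * q) := by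
    have e1 : q * X4 ≤ L * (X4 * q) := by nlinarith
    have e2 : q * (1 + 4 * L) ≤ 5 * L * (X4 * q) := by
      have : q * (1 + 4 * L) ≤ (q * X4) * (5 * L) :=
        mul_le_mul h3 (by linarith) (by linarith) hqX
      linarith
    have e3 : lr * (C2 * X4 * (q * (12 * L + K * L))) = (lr * C2 * (12 + K)) * L * (X4 * q) := by
      ring
    rw [e3]
    nlinarith
  refine h2.trans ?_
  calc h * (16 * (q * X4 + lr * (C2 * X4 * (q * (12 * L + K * L)))) +
        16 * (q * X4 + 16 * (q * (1 + 4 * L)))) ≤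
        (4 * C1 * √X * L) * (((16 + 16 * (lr * C2 * (12 + K)) + 1296) * L) * (X4 * q)) :=
          mul_le_mul hh h4 (by positivity) (by positivity)
      _ = _ := by ring

theorem main (l : ℕ) (hl : Odd l) (ε : ℝ) (hε : 0 < ε) : ∃ X0 : ℕ, ∀ X H : ℕ, X0 ≤ X → H ≤ X →
    X ≤ H ^ (l - 1) → ∑ D ∈ Ioc X (X + H), (tors l (-(D : ℤ)) : ℝ) ≤
      H * (X : ℝ) ^ (1 / 2 + ε) / ((H : ℝ) * √(X : ℝ)) ^ (1 / ((l : ℝ) + 1)) := by
  set δ := min (ε / 5) (1 / 2) with hδdef
  have d1 : 0 < δ := lt_min (by linarith) (by norm_num)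
  have d2 : 5 * δ ≤ ε := by have := min_le_left (ε / 5) (1 / 2); linarith
  have d3 : δ ≤ 1 / 2 := min_le_right _ _
  obtain ⟨C1, hC1, hcl⟩ := class_number
  obtain ⟨C2, hC2, hsz⟩ := sum_z δ d1
  have hl0 : (0 : ℝ) < (l : ℝ) + 1 := by positivity
  set a : ℝ := 1 / 2 * (1 / ((l : ℝ) + 1)) * (1 - δ) with ha
  have ha0 : 0 < a := by
    have : 0 < 1 - δ := by linarith
    rw [ha]; positivity
  have hsq : Tendsto (fun X : ℝ => √X ^ (1 / ((l : ℝ) + 1))) atTop atTop :=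
    (tendsto_rpow_atTop (by positivity)).comp tendsto_sqrt_atTop
  have v1 := hsq.eventually (primes_many δ d1)
  -- the same for all larger arguments
  obtain ⟨Y0, hY0⟩ := eventually_atTop.1 (primes_many δ d1)
  have v2 := hsq.eventually (eventually_ge_atTop Y0)
  have v3 := ev_log_le (1 / 16) a (by norm_num) ha0
  set Kc : ℝ := 4 * C1 * (16 + 16 * (((l : ℝ) + 1) ^ 2 * C2 * (12 + 2 ^ (l + 2))) + 1296) with hKc
  have hKc0 : 0 < Kc := by rw [hKc]; positivity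
  have v4 := ev_log_le (1 / √Kc) (δ / 2) (by positivity) (by positivity)
  have v5 := eventually_ge_atTop (max 3 ((2 : ℝ) ^ (l + 2)))
  have hall := ((v2.and v3).and v4).and v5
  have htend : Tendsto (fun X : ℕ => (X : ℝ)) atTop atTop := tendsto_natCast_atTop_atTop
  obtain ⟨X0, hX0⟩ := eventually_atTop.1 (htend.eventually hall)
  refine ⟨X0, fun X H hX hHX hXH => ?_⟩
  obtain ⟨⟨⟨w2, w3⟩, w4⟩, w5⟩ := hX0 X hX
  have hX3 : (3 : ℝ) ≤ X := (le_max_left _ _).trans w5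
  have hX2l : (2 : ℝ) ^ (l + 2) ≤ X := (le_max_right _ _).trans w5
  have hX0' : (0 : ℝ) < X := by linarith
  have hXn : 1 ≤ X := by
    have : (1 : ℝ) ≤ X := by linarith
    exact_mod_cast this
  set L := log (X : ℝ) with hLdef
  have hL1 : 1 ≤ L := by
    rw [hLdef, le_log_iff_exp_le hX0']
    linarith [exp_one_lt_d9]
  have hH1 : 1 ≤ H := by
    rcases Nat.eq_zero_or_pos H with h0 | h0
    · exfalso
      rw [h0] at hXH
      rcases Nat.eq_zero_or_pos (l - 1) with h1 | h1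
      · rw [h1, pow_zero] at hXH
        have : (X : ℝ) ≤ 1 := by exact_mod_cast hXH
        linarith
      · rw [zero_pow (by omega)] at hXH
        omega
    · exact h0
  have hH1' : (1 : ℝ) ≤ H := by exact_mod_cast hH1
  have hHX' : (H : ℝ) ≤ X := by exact_mod_cast hHX
  have hsX1 : 1 ≤ √(X : ℝ) := by rw [one_le_sqrt]; linarith
  set W : ℝ := (H : ℝ) * √(X : ℝ) with hW
  have hW0 : 0 < W := by positivity
  have hW1 : 1 ≤ W := one_le_mul_of_one_le_of_one_le hH1' hsX1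
  set Z : ℝ := W ^ (1 / ((l : ℝ) + 1)) with hZ
  have hZ1 : 1 ≤ Z := one_le_rpow hW1 (by positivity)
  have hZ0 : 0 < Z := by linarith
  have hZl : Z ^ (l + 1) = W := by
    rw [hZ, ← rpow_natCast, ← rpow_mul hW0.le]
    have : 1 / ((l : ℝ) + 1) * ((l + 1 : ℕ) : ℝ) = 1 := by
      push_cast
      field_simp
    rw [this, rpow_one]
  have hZsq : Z ^ 2 ≤ H := by
    have h1 : (Z ^ 2) ^ (l + 1) ≤ (H : ℝ) ^ (l + 1) := by
      have h2 : (X : ℝ) ≤ (H : ℝ) ^ (l - 1) := by exact_mod_cast hXH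
      have h3 : (l - 1) + 2 = l + 1 := by have := hl.pos; omega
      calc (Z ^ 2) ^ (l + 1) = (Z ^ (l + 1)) ^ 2 := by rw [← pow_mul, ← pow_mul, mul_comm]
        _ = (H : ℝ) ^ 2 * X := by rw [hZl, hW, mul_pow, sq_sqrt hX0'.le]
        _ ≤ (H : ℝ) ^ 2 * (H : ℝ) ^ (l - 1) := by gcongr
        _ = (H : ℝ) ^ (l + 1) := by rw [← pow_add, ← h3]; congr 1; omega
    exact (pow_le_pow_iff_left₀ (by positivity) (by positivity) (by omega)).1 h1
  set q : ℝ := H / Z with hq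
  have hq0 : 0 < q := by positivity
  have hZq : Z ≤ q := by
    rw [hq, le_div_iff₀ hZ0, ← sq]
    exact hZsq
  have hq1 : 1 ≤ q := hZ1.trans hZq
  have hsHq : √(H : ℝ) ≤ q := by
    rw [hq, le_div_iff₀ hZ0]
    have h1 : Z ≤ √(H : ℝ) := (Real.le_sqrt' hZ0).2 hZsq
    calc √(H : ℝ) * Z ≤ √(H : ℝ) * √(H : ℝ) := mul_le_mul_of_nonneg_left h1 (sqrt_nonneg _)
      _ = H := mul_self_sqrt (by positivity)
  have hqX : q ≤ X := by
    rw [hq, div_le_iff₀ hZ0]
    exact hHX'.trans (le_mul_of_one_le_right hX0'.le hZ1)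
  have hZX : Z ≤ X := hZq.trans hqX
  have hZlX : Z ^ l / √(X : ℝ) = q := by
    rw [hq, div_eq_div_iff (by positivity) hZ0.ne', ← pow_succ, hZl]
  -- primes
  have hZlow : √(X : ℝ) ^ (1 / ((l : ℝ) + 1)) ≤ Z := by
    rw [hZ]
    apply rpow_le_rpow (by positivity) _ (by positivity)
    rw [hW]
    exact le_mul_of_one_le_left (sqrt_nonneg _) hH1'
  set PP := PPf Z with hPP
  have hPlow : Z ^ (1 - δ) ≤ (PP.card : ℝ) := hY0 Z (w2.trans hZlow)
  have hP1 : (1 : ℝ) ≤ PP.card := (one_le_rpow hZ1 (by linarith)).trans hPlow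
  have hP1' : 1 ≤ PP.card := by exact_mod_cast hP1
  have hP0 : (0 : ℝ) < PP.card := by linarith
  have hPa : (X : ℝ) ^ a ≤ PP.card := by
    refine le_trans ?_ hPlow
    have h1 : (X : ℝ) ^ a = (√(X : ℝ) ^ (1 / ((l : ℝ) + 1))) ^ (1 - δ) := by
      rw [sqrt_eq_rpow, ← rpow_mul hX0'.le, ← rpow_mul hX0'.le, ha]
    rw [h1]
    exact rpow_le_rpow (by positivity) hZlow (by linarith)
  set y := ⌈Z⌉₊ with hy
  have hy1 : 1 ≤ y := Nat.ceil_pos.2 hZ0
  have hyZ : (y : ℝ) ≤ 2 * Z := by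
    have := Nat.ceil_lt_add_one hZ0.le
    linarith
  have hlogX2 : log (2 * (X : ℝ)) ≤ 2 * L := by
    rw [log_mul (by norm_num) hX0'.ne']
    have : log 2 ≤ 1 := by linarith [log_two_lt_d9]
    linarith
  have hlogy : log (y : ℝ) ≤ 2 * L := by
    refine le_trans (log_le_log (by exact_mod_cast hy1) ?_) hlogX2
    linarith
  have hlogy0 : 0 ≤ log (y : ℝ) := log_natCast_nonneg y
  -- the class number
  have hcn : ∀ D ∈ Ioc X (X + H), C1 * √(D : ℝ) * log D ≤ 4 * C1 * √(X : ℝ) * L := by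
    intro D hD
    rw [mem_Ioc] at hD
    have h1 : (D : ℝ) ≤ 2 * X := by
      have : D ≤ 2 * X := by omega
      exact_mod_cast this
    have h0 : (0 : ℝ) < D := by
      have : 0 < D := by omega
      exact_mod_cast this
    have h2 : √(D : ℝ) ≤ 2 * √(X : ℝ) := by
      rw [sqrt_le_left (by positivity), mul_pow, sq_sqrt hX0'.le]
      linarith
    have h3 : log (D : ℝ) ≤ 2 * L := (log_le_log h0 h1).trans hlogX2
    have h4 : 0 ≤ log (D : ℝ) := log_natCast_nonneg D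
    calc C1 * √(D : ℝ) * log D ≤ C1 * (2 * √(X : ℝ)) * (2 * L) := by gcongr
      _ = _ := by ring
  set h : ℝ := 4 * C1 * √(X : ℝ) * L with hh
  have hh0 : 0 ≤ h := by rw [hh]; positivity
  -- the exceptional discriminants
  set B := (Ioc X (X + H)).filter fun n : ℕ =>
    (PP.card : ℝ) / 4 ≤ |∑ p ∈ PP, ((jacobiSym (-(n : ℤ)) p : ℤ) : ℝ)| with hB
  have hbad := bad_count PP y hy1 (fun p hp => (mem_PPf.1 hp).2.1) (fun p hp => (mem_PPf.1 hp).2.2)
    (fun p hp => by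
      have h1 : (p : ℝ) ≤ y := (mem_PPf.1 hp).1.le.trans (Nat.le_ceil _)
      exact_mod_cast h1) hP1' X H B (filter_subset _ _) (fun n hn => by
      rw [hB, mem_filter] at hn
      exact hn.2)
  -- pointwise
  have hpt : ∀ D ∈ Ioc X (X + H), (tors l (-(D : ℤ)) : ℝ) ≤
      16 * h * (1 / PP.card + (SP PP l D).card / (PP.card : ℝ) ^ 2) +
        (if D ∈ B then h else 0) := by
    intro D hD
    have hD1 : 1 ≤ D := by rw [mem_Ioc] at hD; omega
    by_cases hDB : D ∈ B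
    · rw [if_pos hDB]
      have h1 := (tors_all hC1 hcl l D).trans (hcn D hD)
      have h2 : 0 ≤ 16 * h * (1 / PP.card + (SP PP l D).card / (PP.card : ℝ) ^ 2) := by positivity
      linarith
    · rw [if_neg hDB, add_zero]
      have h1 : |∑ p ∈ PP, ((jacobiSym (-(D : ℤ)) p : ℤ) : ℝ)| < (PP.card : ℝ) / 4 := by
        by_contra hc
        exact hDB (mem_filter.2 ⟨hD, not_lt.1 hc⟩)
      have h2 : 2 * log (D : ℝ) ≤ (PP.card : ℝ) / 4 := by
        have h3 : log (D : ℝ) ≤ 2 * L := by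
          rw [mem_Ioc] at hD
          refine le_trans (log_le_log (by exact_mod_cast hD1) ?_) hlogX2
          have : D ≤ 2 * X := by omega
          exact_mod_cast this
        linarith
      have h3 := good_split PP (fun p hp => (mem_PPf.1 hp).2.1) D hD1 h2 h1
      have h4 := tors_good hC1 hcl hl PP (fun p hp => (mem_PPf.1 hp).2) D hD1 hP1' h3
      refine h4.trans ?_
      gcongr
      exact hcn D hD
  -- the total number of representations
  set zm := ⌊2 * (y : ℝ) ^ l / √(X : ℝ)⌋₊ + 1 with hzm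
  have htot := total PP y (fun p hp => ⟨(mem_PPf.1 hp).2.1, (mem_PPf.1 hp).2.2, by
    have h1 : (p : ℝ) ≤ y := (mem_PPf.1 hp).1.le.trans (Nat.le_ceil _)
    exact_mod_cast h1⟩) l hl X H zm hXn hy1 (by
      intro z hz
      have h1 : (z : ℝ) ≤ 2 * (y : ℝ) ^ l / √(X : ℝ) := by
        rw [le_div_iff₀ (by positivity)]
        have h2 : ((z : ℝ) * √(X : ℝ)) ^ 2 ≤ (2 * (y : ℝ) ^ l) ^ 2 := by
          rw [mul_pow, sq_sqrt hX0'.le, mul_pow, ← pow_mul, mul_comm l 2]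
          norm_num
          exact_mod_cast hz.le
        exact (pow_le_pow_iff_left₀ (by positivity) (by positivity) (by norm_num)).1 h2
      have h2 : z ≤ ⌊2 * (y : ℝ) ^ l / √(X : ℝ)⌋₊ := Nat.le_floor h1
      omega)
  have hzm1 : 1 ≤ zm := by omega
  have hzmq : (zm : ℝ) ≤ 2 ^ (l + 2) * q := by
    have h1 : (zm : ℝ) ≤ 2 * (y : ℝ) ^ l / √(X : ℝ) + 1 := by
      rw [hzm]
      push_cast
      have := Nat.floor_le (show 0 ≤ 2 * (y : ℝ) ^ l / √(X : ℝ) by positivity)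
      linarith
    have h2 : 2 * (y : ℝ) ^ l / √(X : ℝ) ≤ 2 ^ (l + 1) * q := by
      calc 2 * (y : ℝ) ^ l / √(X : ℝ) ≤ 2 * (2 * Z) ^ l / √(X : ℝ) := by gcongr
        _ = 2 ^ (l + 1) * (Z ^ l / √(X : ℝ)) := by rw [mul_pow]; ring
        _ = _ := by rw [hZlX]
    have h3 : (1 : ℝ) ≤ 2 ^ (l + 1) * q := by
      have : (1 : ℝ) ≤ 2 ^ (l + 1) := one_le_pow₀ (by norm_num)
      exact one_le_mul_of_one_le_of_one_le this hq1
    calc (zm : ℝ) ≤ 2 ^ (l + 1) * q + 2 ^ (l + 1) * q := by linarith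
      _ = _ := by ring
  have hzmX : (zm : ℝ) ≤ (X : ℝ) ^ 2 := by
    refine hzmq.trans ?_
    rw [sq]
    exact mul_le_mul hX2l hqX hq0.le hX0'.le
  set X4 : ℝ := (X : ℝ) ^ (4 * δ) with hX4
  have hX41 : 1 ≤ X4 := one_le_rpow (by linarith) (by positivity)
  have hsum := hsz zm H hzm1
  have htot2 : ((∑ D ∈ Ioc X (X + H), (SP PP l D).card : ℕ) : ℝ) ≤ (PP.card : ℝ) ^ 2 *
      (((l : ℝ) + 1) ^ 2 * (C2 * X4 * (q * (12 * L + 2 ^ (l + 2) * L)))) := by
    refine htot.trans ?_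
    rw [mul_assoc]
    refine mul_le_mul_of_nonneg_left ?_ (by positivity)
    refine mul_le_mul_of_nonneg_left ?_ (by positivity)
    refine hsum.trans ?_
    have h1 : ((zm : ℝ) ^ 2) ^ δ ≤ X4 := by
      have h2 : (zm : ℝ) ^ 2 ≤ (X : ℝ) ^ 4 := by
        calc (zm : ℝ) ^ 2 ≤ ((X : ℝ) ^ 2) ^ 2 := by gcongr
          _ = _ := by ring
      calc ((zm : ℝ) ^ 2) ^ δ ≤ ((X : ℝ) ^ 4) ^ δ := rpow_le_rpow (by positivity) h2 d1.le
        _ = X4 := by
            rw [hX4, ← rpow_natCast, ← rpow_mul hX0'.le]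
            norm_num
    have h2 : log (zm : ℝ) ≤ 2 * L := by
      have h3 := log_le_log (by exact_mod_cast hzm1) hzmX
      rw [log_pow] at h3
      exact_mod_cast h3
    have h3 : 4 * √(H : ℝ) * (1 + log (zm : ℝ)) + zm ≤ q * (12 * L + 2 ^ (l + 2) * L) := by
      have e0 : 0 ≤ 1 + log (zm : ℝ) := by have := log_natCast_nonneg zm; linarith
      have e1 : 4 * √(H : ℝ) * (1 + log (zm : ℝ)) ≤ 4 * q * (3 * L) :=
        mul_le_mul (by linarith) (by linarith) e0 (by positivity)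
      have e2 : 2 ^ (l + 2) * q ≤ 2 ^ (l + 2) * q * L :=
        le_mul_of_one_le_right (by positivity) hL1
      calc 4 * √(H : ℝ) * (1 + log (zm : ℝ)) + zm ≤ 4 * q * (3 * L) + 2 ^ (l + 2) * q * L := by
            linarith
        _ = _ := by ring
    have h4 : 0 ≤ 4 * √(H : ℝ) * (1 + log (zm : ℝ)) + zm := by
      have e0 : 0 ≤ log (zm : ℝ) := log_natCast_nonneg zm
      positivity
    calc C2 * ((zm : ℝ) ^ 2) ^ δ * (4 * √(H : ℝ) * (1 + log (zm : ℝ)) + zm) ≤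
        C2 * X4 * (q * (12 * L + 2 ^ (l + 2) * L)) :=
          mul_le_mul (mul_le_mul_of_nonneg_left h1 hC2.le) h3 h4 (by positivity)
      _ = _ := rfl
  -- `H / P`
  have hHP : (H : ℝ) / PP.card ≤ q * X4 := by
    have h1 : (H : ℝ) / PP.card ≤ H / Z ^ (1 - δ) := by gcongr
    have h2 : (H : ℝ) / Z ^ (1 - δ) = q * Z ^ δ := by
      have e : Z ^ (1 - δ) * Z ^ δ = Z := by
        rw [← rpow_add hZ0]
        simp
      rw [hq, div_eq_iff (by positivity)]
      calc (H : ℝ) = H / Z * Z := by field_simp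
        _ = H / Z * (Z ^ (1 - δ) * Z ^ δ) := by rw [e]
        _ = _ := by ring
    have h3 : Z ^ δ ≤ X4 := by
      calc Z ^ δ ≤ (X : ℝ) ^ δ := rpow_le_rpow hZ0.le hZX d1.le
        _ ≤ X4 := rpow_le_rpow_of_exponent_le (by linarith) (by linarith)
    rw [h2] at h1
    exact h1.trans (mul_le_mul_of_nonneg_left h3 hq0.le)
  have hbad2 : (B.card : ℝ) ≤ 16 * (q * X4 + 16 * (q * (1 + 4 * L))) := by
    refine hbad.trans ?_
    have h1 : 8 * (y : ℝ) * (1 + 2 * log (y : ℝ)) ≤ 16 * q * (1 + 4 * L) :=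
      mul_le_mul (by linarith) (by linarith) (by linarith) (by positivity)
    linarith
  -- sum up
  have hsumup : ∑ D ∈ Ioc X (X + H), (tors l (-(D : ℤ)) : ℝ) ≤
      16 * h * ((H : ℝ) / PP.card +
        ((∑ D ∈ Ioc X (X + H), (SP PP l D).card : ℕ) : ℝ) / (PP.card : ℝ) ^ 2) + h * B.card := by
    refine (sum_le_sum hpt).trans (le_of_eq ?_)
    rw [sum_add_distrib, ← mul_sum, sum_add_distrib, sum_const, Nat.card_Ioc, Nat.add_sub_cancel_left,
      nsmul_eq_mul, ← sum_div, ← sum_filter, sum_const, nsmul_eq_mul]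
    have e1 : (Ioc X (X + H)).filter (fun D => D ∈ B) = B := by
      rw [filter_mem_eq_inter]
      exact inter_eq_right.2 (filter_subset _ _)
    rw [e1]
    push_cast
    ring
  have hcomb := combine (X := (X : ℝ)) hC1 hC2.le (show (0 : ℝ) ≤ 2 ^ (l + 2) by positivity)
    (show (0 : ℝ) ≤ ((l : ℝ) + 1) ^ 2 by positivity) hP0 hL1 hq0.le hX41 hh0 le_rfl hHP htot2 hbad2
  refine (hsumup.trans hcomb).trans ?_
  rw [← hKc]
  have hKL : Kc * L ^ 2 ≤ (X : ℝ) ^ δ := by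
    have h1 : L ^ 2 ≤ (1 / √Kc * (X : ℝ) ^ (δ / 2)) ^ 2 := by
      exact pow_le_pow_left₀ (by linarith) w4 2
    have h2 : (1 / √Kc * (X : ℝ) ^ (δ / 2)) ^ 2 = (X : ℝ) ^ δ / Kc := by
      rw [mul_pow, div_pow, sq_sqrt hKc0.le, one_pow, ← rpow_natCast ((X : ℝ) ^ (δ / 2)) 2,
        ← rpow_mul hX0'.le]
      have : δ / 2 * ((2 : ℕ) : ℝ) = δ := by push_cast; ring
      rw [this]
      ring
    rw [h2] at h1
    calc Kc * L ^ 2 ≤ Kc * ((X : ℝ) ^ δ / Kc) := by gcongr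
      _ = _ := by field_simp
  calc Kc * L ^ 2 * (√(X : ℝ) * X4 * q) ≤ (X : ℝ) ^ δ * (√(X : ℝ) * X4 * q) :=
        mul_le_mul_of_nonneg_right hKL (by positivity)
    _ = (X : ℝ) ^ (1 / 2 + 5 * δ) * q := by
        have e1 : (X : ℝ) ^ (1 / 2 + 5 * δ) = (X : ℝ) ^ δ * (√(X : ℝ) * X4) := by
          rw [sqrt_eq_rpow, hX4, ← rpow_add hX0', ← rpow_add hX0']
          congr 1
          ring
        rw [e1]
        ring
    _ ≤ (X : ℝ) ^ (1 / 2 + ε) * q := by
        refine mul_le_mul_of_nonneg_right ?_ hq0.le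
        exact rpow_le_rpow_of_exponent_le (by linarith) (by linarith)
    _ = _ := by
        rw [hq]
        ring

end Pool.Agent.H568.TS
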